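import Mathlib
import Pool.Agent.X321.DR.Fml
import Pool.Agent.X321.DR.Hyper

set_option autoImplicit false

/-! # MP_668d6d_lc: definable convex valuations on ordered fields dense in their real closure

We answer Q1: there is an ordered field `K` which is dense in its real closure and which has a
nontrivial convex valuation which is definable in the language of ordered rings.

Let `F` be an ultrapower of the field of real algebraic numbers with respect to a nonprincipal
ultrafilter on the natural numbers, considered as a subfield of the hyperreals, and let `s` be a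
real transcendental number. Let `K = F(s)`, a subfield of the hyperreals. Since `F` is dense in the
hyperreals, `K` is dense in its real closure.

The natural numbers are definable in the field `K` with the parameter `s`: the sets of all `a` such
that `a` is the coordinate of a point of the Fermat cubic and `f / (s - a)` is, up to sign, of the
form `x² - (4 (s - a)² - 1) y²`, with `f ≠ 0` in `K`, are finite subsets of `F`, and among these
there are the sets `{0, ..., n}`. So the ring of finite elements is definable with the order. -/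

namespace Pool.Agent.Results.MP_668d6d_lc.DefinableConvex

open FirstOrder FirstOrder.Language FirstOrder.Ring Polynomial
open Pool.Agent.X321.DR

/-- the ordered field `K` is dense in its real closure: there is a real closed field `R` which is
algebraic over `K`, whose order extends the order of `K`, and every non-empty open interval of `R`
contains an element of `K` -/
def IsDenseInRealClosure (K : Type) [Field K] [LinearOrder K] : Prop :=
  ∃ (R : Type) (_ : Field R) (_ : LinearOrder R) (_ : IsStrictOrderedRing R) (_ : Algebra K R),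
    IsRealClosed R ∧ Algebra.IsAlgebraic K R ∧ StrictMono (algebraMap K R) ∧
    ∀ x y : R, x < y → ∃ z : K, x < algebraMap K R z ∧ algebraMap K R z < y

/-- the valuation ring `O` is definable in the language of ordered rings, with parameters -/
def IsDefinable {K : Type} [Field K] [LinearOrder K] [CompatibleRing K]
    [Language.order.Structure K] (O : ValuationSubring K) : Prop :=
  ∃ (q : ℕ) (ψ : (Language.ring.sum Language.order).Formula (Fin 1 ⊕ Fin q)) (c : Fin q → K),
    ∀ x : K, x ∈ O ↔ ψ.Realize (Sum.elim (fun _ => x) c)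

/-- the ring of finite elements -/
def finRing (K : Type) [Field K] [LinearOrder K] [IsStrictOrderedRing K] : ValuationSubring K where
  carrier := {x | ∃ n : ℕ, |x| ≤ n}
  mul_mem' := by
    rintro x y ⟨m, hm⟩ ⟨n, hn⟩
    refine ⟨m * n, ?_⟩
    rw [abs_mul, Nat.cast_mul]
    exact mul_le_mul hm hn (abs_nonneg _) (Nat.cast_nonneg _)
  one_mem' := ⟨1, by simp⟩
  add_mem' := by
    rintro x y ⟨m, hm⟩ ⟨n, hn⟩
    refine ⟨m + n, ?_⟩
    rw [Nat.cast_add]
    exact (abs_add_le x y).trans (add_le_add hm hn)
  zero_mem' := ⟨0, by simp⟩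
  neg_mem' := by
    rintro x ⟨m, hm⟩
    exact ⟨m, by rwa [abs_neg]⟩
  mem_or_inv_mem' := by
    intro x
    rcases le_total |x| 1 with h | h
    · exact Or.inl ⟨1, by rwa [Nat.cast_one]⟩
    · refine Or.inr ⟨1, ?_⟩
      rw [Nat.cast_one, abs_inv]
      exact inv_le_one_of_one_le₀ h

lemma mem_finRing {K : Type} [Field K] [LinearOrder K] [IsStrictOrderedRing K] {x : K} :
    x ∈ finRing K ↔ ∃ n : ℕ, |x| ≤ n := Iff.rfl

/-- a transcendental real number -/
lemma exists_transcendental : ∃ x : ℝ, Transcendental ℚ x :=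
  ⟨liouvilleNumber 2, fun h => transcendental_liouvilleNumber (m := 2) le_rfl
    ((IsFractionRing.isAlgebraic_iff ℤ ℚ ℝ).2 h)⟩

lemma alg_rat (q : ℚ) (x : ℝ) (h : (q : ℝ) = x) : IsAlgebraic ℚ x :=
  h ▸ isAlgebraic_ratCast ℚ q

/-- the real closure inside of the hyperreals -/
lemma dense_of (K : IntermediateField FF Hyperreal) : IsDenseInRealClosure K := by
  let R := algebraicClosure K Hyperreal
  have hord : IsStrictOrderedRing R :=
    Function.Injective.isStrictOrderedRing (fun x : R => (x : Hyperreal)) rfl rfl (fun _ _ => rfl)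
      (fun _ _ => rfl) Iff.rfl Iff.rfl
  refine ⟨R, inferInstance, inferInstance, hord, inferInstance, ?_, inferInstance, ?_, ?_⟩
  · refine IsRealClosed.of_linearOrderedField ?_ ?_
    · intro x hx
      obtain ⟨y, hy⟩ := hyper_sqrt (x : Hyperreal) hx
      have h1 : IsAlgebraic K y := by
        refine IsAlgebraic.of_pow (n := 2) (by norm_num) ?_
        rw [pow_two, ← hy]
        exact mem_algebraicClosure_iff.1 x.2
      exact ⟨⟨y, mem_algebraicClosure_iff.2 h1⟩, Subtype.ext hy⟩
    · intro f hf
      obtain ⟨r, hr⟩ := hyper_root (p := f.map (algebraMap R Hyperreal)) (by rwa [natDegree_map])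
      have hf0 : f ≠ 0 := by
        rintro rfl
        rw [natDegree_zero] at hf
        exact absurd hf (by decide)
      have h1 : IsAlgebraic R r := ⟨f, hf0, by rwa [aeval_def, ← eval_map]⟩
      have h2 : r ∈ algebraicClosure R Hyperreal := mem_algebraicClosure_iff.2 h1
      rw [algebraicClosure.algebraicClosure_eq_bot, IntermediateField.mem_bot] at h2
      obtain ⟨y, rfl⟩ := h2
      refine ⟨y, ?_⟩
      rw [IsRoot, eval_map, eval₂_at_apply] at hr
      exact (algebraMap R Hyperreal).injective (by rw [hr, map_zero])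
  · intro x y h
    exact h
  · intro x y h
    obtain ⟨z, hz, h1, h2⟩ := FF_dense (x : Hyperreal) (y : Hyperreal) h
    exact ⟨⟨z, K.algebraMap_mem ⟨z, hz⟩⟩, h1, h2⟩

theorem result : ∃ (K : Type) (_ : Field K) (_ : LinearOrder K) (_ : IsStrictOrderedRing K)
    (_ : CompatibleRing K) (_ : Language.order.Structure K)
    (_ : Language.order.OrderedStructure K),
    IsDenseInRealClosure K ∧
    ∃ O : ValuationSubring K, O ≠ ⊤ ∧ (O : Set K).OrdConnected ∧ IsDefinable O := by
  obtain ⟨x0, hx0⟩ := exists_transcendental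
  let K := IntermediateField.adjoin FF {(x0 : Hyperreal)}
  have hord : IsStrictOrderedRing K :=
    Function.Injective.isStrictOrderedRing (fun x : K => (x : Hyperreal)) rfl rfl (fun _ _ => rfl)
      (fun _ _ => rfl) Iff.rfl Iff.rfl
  let s : K := IntermediateField.AdjoinSimple.gen FF (x0 : Hyperreal)
  have hcoe : ∀ p : FF[X], ((aeval s p : K) : Hyperreal) = aeval (x0 : Hyperreal) p := by
    intro p
    exact (aeval_algebraMap_apply Hyperreal s p).symm
  have hs : Transcendental FF s := by
    rintro ⟨p, hp, h⟩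
    refine transcendental_FF x0 hx0 ⟨p, hp, ?_⟩
    rw [← hcoe, h]
    rfl
  have hK : ∀ x : K, ∃ p q : FF[X], q ≠ 0 ∧ x * aeval s q = aeval s p := by
    intro x
    obtain ⟨p, q, h⟩ := IntermediateField.mem_adjoin_simple_iff FF (x : Hyperreal) |>.1 x.2
    by_cases hq : aeval (x0 : Hyperreal) q = 0
    · refine ⟨0, 1, one_ne_zero, ?_⟩
      rw [hq, div_zero] at h
      have : x = 0 := Subtype.ext h
      rw [this, zero_mul, map_zero]
    · refine ⟨p, q, ?_, ?_⟩
      · rintro rfl
        exact hq (map_zero _)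
      · apply Subtype.ext
        change (x : Hyperreal) * ((aeval s q : K) : Hyperreal) = _
        rw [hcoe, hcoe, h, div_mul_cancel₀ _ hq]
  -- real algebraic numbers
  let j : ∀ x : ℝ, IsAlgebraic ℚ x → K := fun x hx =>
    ⟨(x : Hyperreal), K.algebraMap_mem ⟨_, coe_mem_FF hx⟩⟩
  have hh : ∀ m : ℕ, 1 ≤ m → ∃ β γ : K, 4 * β * γ = 1 ∧ β ^ 2 + γ ^ 2 = m := by
    intro m hm
    have hm' : (1 : ℝ) ≤ m := by exact_mod_cast hm
    have hu : √((m : ℝ) + 1 / 2) ^ 2 = (m : ℝ) + 1 / 2 := Real.sq_sqrt (by linarith)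
    have hw : √((m : ℝ) - 1 / 2) ^ 2 = (m : ℝ) - 1 / 2 := Real.sq_sqrt (by linarith)
    have hu' : IsAlgebraic ℚ √((m : ℝ) + 1 / 2) := by
      refine IsAlgebraic.of_pow (n := 2) (by norm_num) ?_
      rw [hu]
      exact alg_rat ((m : ℚ) + 1 / 2) _ (by push_cast; rfl)
    have hw' : IsAlgebraic ℚ √((m : ℝ) - 1 / 2) := by
      refine IsAlgebraic.of_pow (n := 2) (by norm_num) ?_
      rw [hw]
      exact alg_rat ((m : ℚ) - 1 / 2) _ (by push_cast; rfl)
    have h2 : IsAlgebraic ℚ ((1 : ℝ) / 2) := alg_rat (1 / 2) _ (by push_cast; rfl)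
    set u := √((m : ℝ) + 1 / 2) with hu0
    set w := √((m : ℝ) - 1 / 2) with hw0
    refine ⟨j ((u - w) * (1 / 2)) ((hu'.sub hw').mul h2), j ((u + w) * (1 / 2))
      ((hu'.add hw').mul h2), Subtype.ext ?_, Subtype.ext ?_⟩
    · have h3 : 4 * ((u - w) * (1 / 2)) * ((u + w) * (1 / 2)) = (1 : ℝ) := by
        linear_combination hu - hw
      have h4 := congrArg (fun z : ℝ => (z : Hyperreal)) h3
      simp only [Hyperreal.coe_mul, Hyperreal.coe_one] at h4
      exact h4
    · have h3 : ((u - w) * (1 / 2)) ^ 2 + ((u + w) * (1 / 2)) ^ 2 = (m : ℝ) := by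
        linear_combination (1 / 2) * hu + (1 / 2) * hw
      have h4 := congrArg (fun z : ℝ => (z : Hyperreal)) h3
      exact h4
  have hc : ∀ n : ℕ, InD (n : K) := by
    intro n
    obtain ⟨y, hy⟩ := real_root (X ^ 3 - C (1 - (n : ℝ) ^ 3)) (by
      rw [natDegree_X_pow_sub_C]; decide)
    rw [eval_sub, eval_pow, eval_X, eval_C, sub_eq_zero] at hy
    have hy' : IsAlgebraic ℚ y := by
      refine IsAlgebraic.of_pow (n := 3) (by norm_num) ?_
      rw [hy]
      exact alg_rat (1 - (n : ℚ) ^ 3) _ (by push_cast; rfl)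
    refine ⟨j y hy', Subtype.ext ?_⟩
    have h3 : (n : ℝ) ^ 3 + y ^ 3 = 1 := by rw [hy]; ring
    exact congrArg (fun z : ℝ => (z : Hyperreal)) h3
  let hcr : CompatibleRing K := compatibleRingOfRing K
  let hos : Language.order.Structure K := orderStructure K
  have hoo : Language.order.OrderedStructure K := ⟨fun _ => Iff.rfl⟩
  refine ⟨K, inferInstance, inferInstance, hord, hcr, hos, hoo, dense_of K, finRing K, ?_, ?_, ?_⟩
  · intro h
    have h1 : (⟨Hyperreal.omega, K.algebraMap_mem ⟨_, omega_mem_FF⟩⟩ : K) ∈ finRing K := by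
      rw [h]
      trivial
    obtain ⟨n, hn⟩ := h1
    have h2 : (⟨Hyperreal.omega, K.algebraMap_mem ⟨_, omega_mem_FF⟩⟩ : K) ≤ (n : K) :=
      (le_abs_self _).trans hn
    exact absurd (Hyperreal.coe_lt_omega (n : ℝ)) (not_lt.2 h2)
  · refine ⟨fun x hx y hy z hz => ?_⟩
    obtain ⟨m, hm⟩ := hx
    obtain ⟨n, hn⟩ := hy
    refine ⟨max m n, ?_⟩
    rw [abs_le] at hm hn ⊢
    have h1 : (m : K) ≤ ((max m n : ℕ) : K) := Nat.cast_le.2 (le_max_left m n)
    have h2 : (n : K) ≤ ((max m n : ℕ) : K) := Nat.cast_le.2 (le_max_right m n)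
    constructor
    · linarith [hz.1]
    · linarith [hz.2]
  · obtain ⟨ψ, hψ⟩ := Pool.Agent.X321.DR.exists_formula (K := K)
    refine ⟨1, ψ, fun _ => s, fun x => ?_⟩
    rw [← hψ, mem_finRing]
    constructor
    · rintro ⟨n, hn⟩
      exact ⟨n, (nt_iff hs hK hh hc _).2 ⟨n, rfl⟩, (le_abs_self x).trans hn,
        (neg_le_abs x).trans hn⟩
    · rintro ⟨c, hc1, h1, h2⟩
      obtain ⟨n, rfl⟩ := (nt_iff hs hK hh hc _).1 hc1
      exact ⟨n, abs_le.2 ⟨by linarith, h1⟩⟩

end Pool.Agent.Results.MP_668d6d_lc.DefinableConvex
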